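import Pool.Agent.Y254.HK.Stm
import Pool.Agent.Y244.HM.Alpha

/-!
# HK-START: the start of the iteration
-/

set_option autoImplicit false

open Finset
open scoped Classical

namespace Pool.Agent.Y210.HK
open Pool.Agent.W904.AK Pool.Agent.W46.HD Pool.Agent.W46.HM Pool.Agent.Y244.HM
  Pool.Agent.Y254HK Pool.Agent

/-- the deficiency is at most `log n` -/
lemma lam_le {Ω : Type} [Fintype Ω] {n : ℕ} {p : Ω × Fin n → ℝ} (hp : IsLaw p) :
    lam p ≤ Real.log n := by
  have h1 : H p (Prod.fst : Ω × Fin n → Ω) ≤ H p (id : Ω × Fin n → Ω × Fin n) := by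
    refine H_mono hp ?_
    intro x y _ _ h
    have h' : x = y := h
    rw [h']
  unfold lam
  linarith

theorem t_start : S_START := by
  intro d c hd hc1 hc ε hε
  have hT : AllT d c d := allT_alpha hd hc1 hc
  have hd0 : (0 : ℝ) ≤ d := Nat.cast_nonneg d
  set e : ℝ := ε / (2 * (1 + d + ε)) with he
  have hden : 0 < 2 * (1 + (d : ℝ) + ε) := by positivity
  have he0 : 0 < e := by positivity
  have hee : e * (1 + d + ε) = ε / 2 := by
    rw [he]
    field_simp
  have he1 : e < 1 := by
    rw [he, div_lt_one hden]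
    linarith
  obtain ⟨C, hC0, hC⟩ := tom d c d e (by linarith) he0 he1 hd0 hT
  have hg : max (d : ℝ) ((d + e) / (1 - e)) ≤ d + ε := by
    refine max_le (by linarith) ?_
    rw [div_le_iff₀ (by linarith)]
    nlinarith
  refine ⟨C, hC0, fun n Ω _ A D hF p hp => ?_⟩
  have h1 := hC n Ω A D hF p hp
  have h2 : 0 ≤ lam p := (W976.HD.PSI Ω n p hF.pos hp).1
  have h3 := lam_le hp
  have h4 : max (d : ℝ) ((d + e) / (1 - e)) * lam p ≤ (d + ε) * lam p :=
    mul_le_mul_of_nonneg_right hg h2
  have h5 : ε * lam p ≤ ε * Real.log n := mul_le_mul_of_nonneg_left h3 hε.le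
  linarith

end Pool.Agent.Y210.HK
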